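import Pool.Agent.H78.TOW.UDA
import Pool.Agent.H41.HYP.S3
import Pool.Agent.H24.HYP.LDA
import Pool.Agent.H70.HYP.NMU

/-!
# TOW, modules LDAE and LDBE: the classes of the twist over an extension
-/

set_option autoImplicit false

namespace Pool.TOW78

open Polynomial Pool.HYP Pool.AVS Pool.TOW Pool.HYP.Lda24

section Places

variable {F : Type} [Field F] {P : F[X]}

theorem ui_rf {L : Type} [Field L] {O : ValuationSubring L} {ι : RatFunc F →+* L}
    (hP : Irreducible P) (hC : UComp P L O ι) {d : F[X]} (hd : ¬ P ∣ d) :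
    UI (O : Set L) (ι (rf d)) := by
  have hd0 : d ≠ 0 := fun h => hd (h ▸ dvd_zero P)
  have h1 : ¬ P ∣ (1 : F[X]) := fun h => hP.not_isUnit (isUnit_of_dvd_one h)
  refine ⟨?_, ?_, ?_⟩
  · intro h
    have h2 : rf d = 0 := by
      rwa [map_eq_zero] at h
    exact hd0 (by simpa using h2)
  · exact poly_mem hP hC d
  · rw [← map_inv₀]
    refine (hC.mem _).2 ?_
    have := mem_div P (a := 1) hd
    simpa using this

variable {E : Type} [Field E] [Algebra (RatFunc F) E]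

theorem fE_map (f : F[X][X]) {L : Type} [Field L] (ι : E →+* L) :
    (fE E f).map ι = (fK f).map (io ι) := by
  rw [fE, Polynomial.map_map]

theorem fE_scale (f : F[X][X]) (hf : f.Monic) (d : F[X]) {L : Type} [Field L] (ι : E →+* L) :
    (fE E (f.scaleRoots d)).map ι = ((fE E f).map ι).scaleRoots (ι (pE E d)) := by
  rw [fE_map, fE_map]
  exact fK_scale f hf d (io ι)

theorem oL_inj {L : Type} [Field L] {O : ValuationSubring L} {p q : O[X]}
    (h : oL O p = oL O q) : p = q :=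
  Polynomial.map_injective _ (FaithfulSMul.algebraMap_injective O L) h

end Places

/-- **LDAE**. -/
theorem ldae_of (hE : EVNStmt) (hI : UDAStmt) : LDAEStmt := by
  intro F _ _ h2 g P hP hPi E _ _ L _ O ι hC f d p hf hfd hS hd hα hn hL fO' hfO'
  obtain ⟨fO, h3, h4, h5, h6⟩ := hI F P hP hPi L O (io ι) hC f hf
  have hfO : fO' = fO := oL_inj (by rw [hfO', h5, fE_map])
  subst hfO
  rw [← fE_map] at h5
  obtain ⟨u, w, s, hu, hc, hw, hs⟩ := hL
  have hU : UI (O : Set L) (ι (pE E d)) := ui_rf hPi hC hd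
  rw [fE_scale f hf d ι, ← h5] at hc hw
  rw [← h5] at hs
  generalize ι (pE E d) = D at hU hc hw hs
  have hD0 : D ≠ 0 := hU.1
  have hdeg : (oL O fO').natDegree = 2 * g + 1 := by
    rw [h3.natDegree_map, h4, hfd]
  have hcm : IsCoprime (u.comp (C D * X)) (oL O fO') := by
    obtain ⟨a, b, hab⟩ := hc
    refine ⟨a.comp (C D * X), b.comp (C D * X) * C (D ^ (2 * g + 1)), ?_⟩
    have := congrArg (fun p => p.comp (C D * X)) hab
    simp only [add_comp, mul_comp, one_comp, scale_comp, hdeg] at this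
    rw [mul_assoc]
    exact this
  refine hE L O (io ι (rf P)) hC.loc ⟨io ι (rf P), hC.loc.pi_mem⟩ fO'
    (C ((D ^ u.natDegree)⁻¹) * u.comp (C D * X)) (C ((D ^ g)⁻¹) * w.comp (C D * X)) s (p.map ι)
    D ((-D) ^ u.natDegree) rfl h3 ⟨g, by rw [h4, hfd]⟩
    (fun γ hγ hγi hin => hS (h6 _ rfl γ hγ hγi hin)) (monic_comp hu hD0) ?_ hU
    (ui_pow (ui_neg hU) _) ?_ ?_ ?_ ?_
  · refine IsCoprime.mul_left ?_ hcm
    refine ⟨C (D ^ u.natDegree), 0, ?_⟩
    rw [← C_mul, mul_inv_cancel₀ (pow_ne_zero _ hD0), C_1, zero_mul, add_zero]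
  · obtain ⟨q, hq⟩ := hw
    refine ⟨C (D ^ u.natDegree * ((D ^ g)⁻¹) ^ 2) * q.comp (C D * X), ?_⟩
    have h8 := congrArg (fun p => p.comp (C D * X)) hq
    simp only [sub_comp, pow_comp, mul_comp, scale_comp, hdeg] at h8
    have e1 : (C ((D ^ g)⁻¹) : L[X]) ^ 2 * C (D ^ (2 * g + 1)) = C D := by
      rw [← C_pow, ← C_mul]
      congr 1
      field_simp
      ring
    have e2 : (C ((D ^ u.natDegree)⁻¹) : L[X]) * C (D ^ u.natDegree * ((D ^ g)⁻¹) ^ 2) =
        C ((D ^ g)⁻¹) ^ 2 := by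
      rw [← C_pow, ← C_mul]
      congr 1
      field_simp
    calc (C ((D ^ g)⁻¹) * w.comp (C D * X)) ^ 2 - C D * oL O fO'
        = C ((D ^ g)⁻¹) ^ 2 * (w.comp (C D * X) ^ 2 - C (D ^ (2 * g + 1)) * oL O fO') := by
          rw [← e1]
          ring
      _ = (C ((D ^ u.natDegree)⁻¹) * C (D ^ u.natDegree * ((D ^ g)⁻¹) ^ 2)) *
          (u.comp (C D * X) * q.comp (C D * X)) := by
          rw [h8, e2]
      _ = _ := by ring
  · have e3 : C ((-D) ^ u.natDegree) * (C ((D ^ u.natDegree)⁻¹) * u.comp (C D * X)) =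
        kap (u.comp (C D * X)) := by
      unfold HYP.kap
      rw [nat_comp u hD0, ← mul_assoc, ← C_mul]
      congr 1
      rw [neg_pow, mul_assoc, mul_inv_cancel₀ (pow_ne_zero _ hD0), mul_one]
      simp
    rw [e3]
    exact hs
  · rw [h5]
    exact hα.map (mapRingHom ι)
  · rw [h5]
    unfold NSq
    rw [nmu.2.2.2 _ _ ι _ _ (hf.map _ |>.map _)]
    exact hn.map ι

/-- **LDBE**. -/
theorem ldbe_of (hT : TW2Stmt) : LDBEStmt := by
  intro F _ _ _ g P hg _ hPi E _ _ L _ O ι HC f d α c γ x hf hn hγ hfL hPd hPd2 hα hN hL hx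
  obtain ⟨d', rfl⟩ := hPd
  have hPd' : ¬ P ∣ d' := by
    rintro ⟨e, rfl⟩
    apply hPd2
    exact ⟨e, by ring⟩
  have hP0 : ι (pE E P) ≠ 0 := HC.loc.pi_ne
  obtain ⟨u, w, s, hu, huf, hud, hs⟩ := hL
  have hfK : (fE E f).Monic := (hf.map _).map _
  have hmap : (fE E (f.scaleRoots (P * d'))).map ι =
      (oL O ((X - C c) * γ)).scaleRoots (ι (pE E (P * d'))) := by
    rw [← hfL, fE_scale f hf]
  have hUI : UI (O : Set L) (ι (pE E (P * d')) / ι (pE E P)) := by
    have h2 : ι (pE E (P * d')) / ι (pE E P) = io ι (rf d') := by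
      rw [div_eq_iff hP0]
      show ι (algebraMap _ _ (algebraMap _ _ (P * d'))) =
        ι (algebraMap _ _ (algebraMap _ _ d')) * ι (algebraMap _ _ (algebraMap _ _ P))
      rw [← map_mul, ← map_mul, ← map_mul, mul_comm]
    rw [h2]
    exact ui_rf hPi HC hPd'
  rw [hmap] at huf hud
  rw [hfL] at hs
  have hα' : IsCoprime (α.map ι) (oL O ((X - C c) * γ)) := by
    rw [← hfL]
    exact hα.map (mapRingHom ι)
  have hN' : NSq (oL O ((X - C c) * γ)) (α.map ι) := by
    rw [← hfL, NSq, nmu.2.2.2 E L ι (fE E f) α hfK]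
    exact hN.map ι
  exact hT L O (ι (pE E P)) HC.loc g c γ hg hγ (ι (pE E (P * d'))) hUI u w s (α.map ι) x hu huf hud
    hs hα' hN' hx

end Pool.TOW78
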