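import Pool.Agent.H29.TOW.S
import Pool.Agent.H5.AVS.RIP

/-!
# TOW, module UDA: smooth points and unramified extensions
-/

set_option autoImplicit false

namespace Pool.TOW78

open Polynomial Pool.HYP Pool.AVS Pool.AVS.RIP Pool.TOW

section Field

/-- The polynomial over the subfield below an irreducible polynomial. -/
theorem low {k l : Type} [Field k] [Finite k] [Field l] [Finite l] (ρ : k →+* l) (γ : l[X])
    (hi : Irreducible γ) : ∃ m : k[X], m.Monic ∧ Irreducible m ∧
      (∀ q : k[X], γ ∣ q.map ρ → m ∣ q) ∧ ∃ δ : l[X], m.map ρ = γ * δ ∧ IsCoprime γ δ := by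
  letI : Algebra k l := ρ.toAlgebra
  have : Fact (Irreducible γ) := ⟨hi⟩
  have hfin : Module.Finite k l := Module.Finite.of_finite
  have hfin2 : Module.Finite l (AdjoinRoot γ) := Module.finite_of_finrank_pos (by
    rw [(AdjoinRoot.powerBasis hi.ne_zero).finrank, AdjoinRoot.powerBasis_dim]
    exact Irreducible.natDegree_pos hi)
  have hfin3 : Module.Finite k (AdjoinRoot γ) := Module.Finite.trans l (AdjoinRoot γ)
  have hint : IsIntegral k (AdjoinRoot.root γ) := Algebra.IsIntegral.isIntegral _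
  have key : ∀ q : k[X], γ ∣ q.map ρ ↔ aeval (AdjoinRoot.root γ) q = 0 := by
    intro q
    rw [← AdjoinRoot.mk_eq_zero]
    have h1 : AdjoinRoot.mk γ (q.map ρ) = aeval (AdjoinRoot.root γ) q := by
      rw [← AdjoinRoot.aeval_eq, aeval_def, eval₂_map, aeval_def]
      rfl
    rw [h1]
  have hm0 : γ ∣ (minpoly k (AdjoinRoot.root γ)).map ρ := by
    rw [key]
    exact minpoly.aeval _ _
  refine ⟨minpoly k (AdjoinRoot.root γ), minpoly.monic hint, minpoly.irreducible hint, ?_, ?_⟩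
  · intro q hq
    exact minpoly.dvd _ _ ((key q).1 hq)
  · obtain ⟨δ, hδ⟩ := hm0
    refine ⟨δ, hδ, ?_⟩
    have hs : (minpoly k (AdjoinRoot.root γ)).Separable :=
      PerfectField.separable_of_irreducible (minpoly.irreducible hint)
    have hs2 := hs.map (f := ρ)
    rw [hδ] at hs2
    exact hs2.isCoprime

end Field

section Main

variable {F : Type} [Field F] {P : F[X]} {L : Type} [Field L] {O : ValuationSubring L}
  {ι : RatFunc F →+* L}

theorem poly_mem (hP : Irreducible P) (h : UComp P L O ι) (p : F[X]) : ι (rf p) ∈ O := by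
  rw [h.mem]
  show ¬ P ∣ (algebraMap F[X] (RatFunc F) p).denom
  rw [RatFunc.denom_algebraMap]
  intro hd
  exact hP.not_isUnit (isUnit_of_dvd_one hd)

theorem dvd_iff (hP : Irreducible P) (h : UComp P L O ι) (p : F[X]) :
    ι (rf p) / ι (rf P) ∈ O ↔ P ∣ p := by
  have hPn : rf P ≠ 0 := by
    rw [Ne, map_eq_zero_iff _ (RatFunc.algebraMap_injective F)]
    exact hP.ne_zero
  constructor
  · intro hm
    rw [← map_div₀, h.mem] at hm
    set x : RatFunc F := rf p / rf P with hx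
    have hd : ¬ P ∣ x.denom := hm
    have hc : IsCoprime P x.denom := hP.coprime_iff_not_dvd.2 hd
    have hdn : algebraMap F[X] (RatFunc F) x.denom ≠ 0 := by
      rw [Ne, map_eq_zero_iff _ (RatFunc.algebraMap_injective F)]
      exact RatFunc.denom_ne_zero x
    have h1 : p * x.denom = P * x.num := by
      apply RatFunc.algebraMap_injective F
      rw [map_mul, map_mul]
      have h2 := RatFunc.num_div_denom x
      rw [div_eq_iff hdn] at h2
      rw [h2, hx]
      field_simp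
    exact hc.dvd_of_dvd_mul_right ⟨x.num, h1⟩
  · rintro ⟨q, rfl⟩
    rw [rf, map_mul, map_mul, mul_div_cancel_left₀ _ h.loc.pi_ne]
    exact poly_mem hP h q

/-- The homomorphism. -/
noncomputable def phi (hP : Irreducible P) (h : UComp P L O ι) : F[X] →+* O where
  toFun p := ⟨ι (rf p), poly_mem hP h p⟩
  map_one' := Subtype.ext (by simp)
  map_zero' := Subtype.ext (by simp)
  map_mul' p q := Subtype.ext (by simp)
  map_add' p q := Subtype.ext (by simp)

/-- The reduction on `F[t]`. -/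
noncomputable def res (hP : Irreducible P) (h : UComp P L O ι) :
    F[X] →+* IsLocalRing.ResidueField O := (IsLocalRing.residue O).comp (phi hP h)

theorem res_zero (hP : Irreducible P) (h : UComp P L O ι) (a : F[X]) :
    res hP h a = 0 ↔ P ∣ a := by
  rw [← dvd_iff hP h]
  show IsLocalRing.residue O (phi hP h a) = 0 ↔ _
  rw [IsLocalRing.residue_eq_zero_iff, mem_max h.loc]
  rfl

/-- The embedding of the residue field. -/
noncomputable def rho (hP : Irreducible P) (h : UComp P L O ι) :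
    AdjoinRoot P →+* IsLocalRing.ResidueField O :=
  Ideal.Quotient.lift (Ideal.span {P}) (res hP h) (by
    intro a ha
    rw [Ideal.mem_span_singleton] at ha
    exact (res_zero hP h a).2 ha)

theorem rho_mk (hP : Irreducible P) (h : UComp P L O ι) (a : F[X]) :
    rho hP h (AdjoinRoot.mk P a) = res hP h a := rfl

theorem map_rho (hP : Irreducible P) (h : UComp P L O ι) (q : F[X][X]) :
    (q.map (AdjoinRoot.mk P)).map (rho hP h) = rd O (q.map (phi hP h)) := by
  rw [Polynomial.map_map, rd, Polynomial.map_map]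
  rfl

theorem oL_map (hP : Irreducible P) (h : UComp P L O ι) (D : F[X][X]) :
    oL O (D.map (phi hP h)) = (fK D).map ι := by
  rw [oL, Polynomial.map_map, fK, Polynomial.map_map]
  rfl

theorem phiP (hP : Irreducible P) (h : UComp P L O ι) {ϖ : O} (hϖ : (ϖ : L) = ι (rf P)) :
    phi hP h P = ϖ := Subtype.ext hϖ.symm

theorem rd_zero (h : UComp P L O ι) {ϖ : O} (hϖ : (ϖ : L) = ι (rf P))
    (z : O[X]) (hz : rd O z = 0) : ∃ δ : O[X], z = C ϖ * δ := by
  have h1 : C ϖ ∣ z := by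
    rw [C_dvd_iff_dvd_coeff]
    intro n
    have h2 : IsLocalRing.residue O (z.coeff n) = 0 := by
      rw [← coeff_map]
      show (rd O z).coeff n = 0
      rw [hz, coeff_zero]
    rw [IsLocalRing.residue_eq_zero_iff, mem_max h.loc] at h2
    refine ⟨⟨_, h2⟩, Subtype.ext ?_⟩
    show (z.coeff n : L) = (ϖ : L) * ((z.coeff n : L) / ι (rf P))
    rw [hϖ, mul_div_cancel₀ _ h.loc.pi_ne]
  exact h1

theorem rd_pi (h : UComp P L O ι) {ϖ : O} (hϖ : (ϖ : L) = ι (rf P)) (z : O[X]) :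
    rd O (C ϖ * z) = 0 := by
  have h1 : IsLocalRing.residue O ϖ = 0 := by
    rw [IsLocalRing.residue_eq_zero_iff, mem_max h.loc, hϖ, div_self h.loc.pi_ne]
    exact O.one_mem
  rw [rd, Polynomial.map_mul, map_C, h1, C_0, zero_mul]

/-- Divisibility modulo `P`. -/
theorem mk_zero (q : F[X][X]) : q.map (AdjoinRoot.mk P) = 0 ↔ C P ∣ q := by
  rw [C_dvd_iff_dvd_coeff]
  constructor
  · intro hD n
    rw [← AdjoinRoot.mk_eq_zero, ← coeff_map, hD, coeff_zero]
  · intro hD
    ext n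
    rw [coeff_map, coeff_zero, AdjoinRoot.mk_eq_zero]
    exact hD n

theorem lift_dvd {m : (AdjoinRoot P)[X]} {γ₀ : F[X][X]} (hγ : γ₀.map (AdjoinRoot.mk P) = m)
    (q : F[X][X]) (hq : m ∣ q.map (AdjoinRoot.mk P)) :
    ∃ a b : F[X][X], q = γ₀ * a + C P * b := by
  obtain ⟨r, hr⟩ := hq
  obtain ⟨a, ha⟩ := Polynomial.map_surjective _ (AdjoinRoot.mk_surjective) r
  have h1 : C P ∣ q - γ₀ * a := by
    rw [← mk_zero, Polynomial.map_sub, Polynomial.map_mul, hγ, ha, hr, sub_self]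
  obtain ⟨b, hb⟩ := h1
  exact ⟨a, b, by rw [← hb]; ring⟩

theorem sing [Finite F] (hPm : P.Monic) (hP : Irreducible P) (h : UComp P L O ι) {ϖ : O}
    (hϖ : (ϖ : L) = ι (rf P)) (f : F[X][X]) (γ : O[X])
    (hi : Irreducible (rd O γ)) (hs : InSq ϖ (f.map (phi hP h)) γ) : Sing P f := by
  have : Fact (Irreducible P) := ⟨hP⟩
  have : Finite (IsLocalRing.ResidueField O) := h.loc.fin
  have : Module.Finite F (AdjoinRoot P) := hPm.finite_adjoinRoot
  have : Finite (AdjoinRoot P) := Module.finite_of_finite F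
  obtain ⟨a, b, c, habc⟩ := hs
  obtain ⟨m, hm1, hm2, hm3, δ₀, hm4, hm5⟩ := low (rho hP h) (rd O γ) hi
  have hf1 : rd O (f.map (phi hP h)) = rd O γ ^ 2 * rd O a := by
    rw [habc]
    have e1 : γ ^ 2 * a + C ϖ * (γ * b) + C (ϖ ^ 2) * c =
        γ ^ 2 * a + C ϖ * (γ * b + C ϖ * c) := by
      rw [C_pow]
      ring
    rw [e1]
    have e2 := rd_pi h hϖ (γ * b + C ϖ * c)
    rw [rd] at e2
    rw [rd, Polynomial.map_add, e2, Polynomial.map_mul, Polynomial.map_pow, add_zero]
  obtain ⟨q, hq⟩ : m ∣ f.map (AdjoinRoot.mk P) := hm3 _ (by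
    rw [map_rho, hf1]
    exact ⟨rd O γ * rd O a, by ring⟩)
  have hq2 : m ∣ q := by
    refine hm3 _ ?_
    have e1 : rd O γ * (δ₀ * q.map (rho hP h)) = rd O γ * (rd O γ * rd O a) := by
      have e2 := congrArg (Polynomial.map (rho hP h)) hq
      rw [map_rho, hf1, Polynomial.map_mul, hm4] at e2
      linear_combination -e2
    have e3 := mul_left_cancel₀ hi.ne_zero e1
    exact hm5.dvd_of_dvd_mul_left ⟨rd O a, e3⟩
  have hl : m ∈ Polynomial.lifts (AdjoinRoot.mk P) := by
    rw [Polynomial.mem_lifts]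
    exact Polynomial.map_surjective _ (AdjoinRoot.mk_surjective) m
  obtain ⟨γ₀, hγ1, _, hγ3⟩ := Polynomial.lifts_and_natDegree_eq_and_monic hl hm1
  obtain ⟨r, hr⟩ := hq2
  obtain ⟨a₀, ha₀⟩ := Polynomial.map_surjective _ (AdjoinRoot.mk_surjective (g := P)) r
  obtain ⟨e, he⟩ : C P ∣ f - γ₀ ^ 2 * a₀ := by
    rw [← mk_zero, Polynomial.map_sub, Polynomial.map_mul, Polynomial.map_pow, hγ1, ha₀, hq, hr]
    ring
  -- over `O`
  obtain ⟨δ, hδ⟩ := Polynomial.map_surjective _ (IsLocalRing.residue_surjective (R := O)) δ₀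
  obtain ⟨ε, hε⟩ := rd_zero h hϖ (γ₀.map (phi hP h) - γ * δ) (by
    have e1 := map_rho hP h γ₀
    rw [hγ1, hm4] at e1
    rw [rd, Polynomial.map_sub, Polynomial.map_mul, hδ]
    show rd O (γ₀.map (phi hP h)) - rd O γ * δ₀ = 0
    rw [← e1, sub_self])
  set A₀ : O[X] := a₀.map (phi hP h) with hA₀
  set G₀ : O[X] := γ₀.map (phi hP h) with hG₀
  set e' : O[X] := e.map (phi hP h) with he'
  have hG : G₀ = γ * δ + C ϖ * ε := by rw [← hε]; ring
  have hϖ0 : (C ϖ : O[X]) ≠ 0 := by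
    rw [Ne, C_eq_zero]
    intro h0
    apply h.loc.pi_ne
    rw [← hϖ, h0]
    rfl
  have hE : γ ^ 2 * a + C ϖ * (γ * b) + C (ϖ ^ 2) * c - G₀ ^ 2 * A₀ = C ϖ * e' := by
    have e1 := congrArg (Polynomial.map (phi hP h)) he
    rw [Polynomial.map_sub, Polynomial.map_mul, Polynomial.map_mul, Polynomial.map_pow, map_C,
      phiP hP h hϖ, habc] at e1
    exact e1
  obtain ⟨a', ha'⟩ := rd_zero h hϖ (a - δ ^ 2 * A₀) (by
    have e1 : rd O (γ ^ 2 * (a - δ ^ 2 * A₀)) = 0 := by
      have e2 : γ ^ 2 * (a - δ ^ 2 * A₀) = C ϖ * (e' - γ * b - C ϖ * c +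
          2 * γ * δ * ε * A₀ + C ϖ * ε ^ 2 * A₀) := by
        rw [hG, C_pow] at hE
        linear_combination hE
      rw [e2]
      exact rd_pi h hϖ _
    rw [rd, Polynomial.map_mul, Polynomial.map_pow] at e1
    rcases mul_eq_zero.1 e1 with h1 | h1
    · exact absurd (pow_eq_zero_iff (two_ne_zero) |>.1 h1) hi.ne_zero
    · exact h1)
  have hE2 : e' = γ * (γ * a' + b - 2 * δ * ε * A₀) + C ϖ * (c - ε ^ 2 * A₀) := by
    apply mul_left_cancel₀ hϖ0
    rw [hG, C_pow] at hE
    linear_combination -hE + γ ^ 2 * ha'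
  obtain ⟨e1, e2, he12⟩ := lift_dvd hγ1 e (hm3 _ (by
    rw [map_rho, ← he', hE2]
    have e2 := rd_pi h hϖ (c - ε ^ 2 * A₀)
    unfold rd at e2 ⊢
    rw [Polynomial.map_add, e2, add_zero, Polynomial.map_mul]
    exact Dvd.intro _ rfl))
  refine ⟨γ₀, a₀, e1, e2, hγ3, by rw [hγ1]; exact hm2, ?_⟩
  rw [C_pow]
  linear_combination he + C P * he12

end Main

/-- **UDA**. -/
theorem uda : UDAStmt := by
  intro F _ _ P hPm hP L _ O ι h f hf
  refine ⟨f.map (phi hP h), hf.map _, hf.natDegree_map _, oL_map hP h f, ?_⟩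
  intro ϖ hϖ γ _ hi hs
  exact sing hPm hP h hϖ f γ hi hs

end Pool.TOW78
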